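import Pool.Agent.H.MP_f98e31_an.B

set_option autoImplicit false
open Set Filter Topology Metric Complex Asymptotics
open scoped ComplexConjugate

namespace Pool.Agent.H.MP_96bc49_an
open Pool.Agent.H.MP_f98e31_an

lemma lq {g : ℝ → ℂ → ℂ} (hd : ∀ e > 0, DifferentiableOn ℂ (g e) HP)
    (hp : ∀ e > 0, ∀ u ∈ HP, 0 < (g e u).re) {δ : ℝ → ℝ} {d : ℝ} (hδ : ∀ e > 0, 0 < δ e)
    (hd0 : 0 ≤ d) (tδ : Tendsto δ (𝓝[>] 0) (𝓝 d))
    (h0 : Tendsto (fun e : ℝ => (g e 1 - 1) / (δ e * e ^ 2)) (𝓝[>] 0) (𝓝 0))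
    (h1 : Tendsto (fun e : ℝ => (g e (1 + δ e) - (1 + δ e)) / (δ e * e ^ 2)) (𝓝[>] 0) (𝓝 0)) :
    Tendsto (fun e : ℝ => e * g e (e⁻¹ : ℝ)) (𝓝[>] 0) (𝓝 1) := by
  have o : (1 : ℂ) ∈ HP := by simp [HP]
  have hw : ∀ e > 0, 1 + (δ e : ℂ) ∈ HP := fun e he => by simpa [HP] using add_pos one_pos (hδ e he)
  have q : ∀ e : ℝ, 0 < e → _ := fun e he => ql (hd e he) (hp e he) o (hw e he) (x := (e⁻¹ : ℝ))
    (show 0 < (((e⁻¹ : ℝ) : ℂ)).re by rw [ofReal_re]; positivity) (by simp [(hδ e he).ne'])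
  choose! k hk1 hk2 using q
  have tt : Tendsto (fun t : ℝ => (t : ℂ)) (𝓝[>] 0) (𝓝 0) :=
    (continuous_ofReal.tendsto' 0 0 rfl).mono_left nhdsWithin_le_nhds
  have td : Tendsto (fun t : ℝ => (δ t : ℂ)) (𝓝[>] 0) (𝓝 d) := (continuous_ofReal.tendsto d).comp tδ
  have nz : ∀ e > 0, (δ e * e ^ 2 : ℂ) ≠ 0 := fun e he =>
    mul_ne_zero (ofReal_ne_zero.2 (hδ e he).ne') (pow_ne_zero _ (ofReal_ne_zero.2 he.ne'))
  obtain ⟨A, tA, g0⟩ : ∃ A : ℝ → ℂ, Tendsto A (𝓝[>] 0) (𝓝 0) ∧ ∀ e > 0,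
      g e 1 = 1 + A e * (δ e * e ^ 2) := ⟨_, h0, fun e he => by rw [div_mul_cancel₀ _ (nz e he)]; ring⟩
  obtain ⟨B, tB, g1⟩ : ∃ B : ℝ → ℂ, Tendsto B (𝓝[>] 0) (𝓝 0) ∧ ∀ e > 0,
      g e (1 + δ e) = 1 + δ e + B e * (δ e * e ^ 2) :=
    ⟨_, h1, fun e he => by rw [div_mul_cancel₀ _ (nz e he)]; ring⟩
  have dd : (1 : ℂ) + d + 1 ≠ 0 := by exact_mod_cast (by positivity : (1 + d + 1 : ℝ) ≠ 0)
  have tK : Tendsto (fun e : ℝ => k e / e) (𝓝[>] 0) (𝓝 0) := by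
    have ct : ContinuousAt (fun x : ℂ × ℂ × ℂ × ℂ => ‖1 + x.1 * (1 + x.2.1)‖ ^ 2 *
        ‖(x.2.1 * (x.2.2.2 + conj x.2.2.1) - (x.2.2.2 - x.2.2.1) * (2 + x.2.1)) /
        (1 + x.2.1 + x.2.2.2 * (x.2.1 * x.1 ^ 2) + conj (1 + x.2.2.1 * (x.2.1 * x.1 ^ 2)))‖)
        (0, d, 0, 0) := by
      fun_prop (disch := simpa using dd)
    have := ct.tendsto.comp (tt.prodMk_nhds (td.prodMk_nhds (tA.prodMk_nhds tB)))
    simp only [map_zero, add_zero, mul_zero, sub_self, zero_mul, zero_div, norm_zero] at this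
    refine squeeze_zero_norm' (mem_of_superset self_mem_nhdsWithin fun t ht => ?_) this
    have t0 : (0 : ℝ) < t := ht
    have : (t : ℂ) ≠ 0 := ofReal_ne_zero.2 t0.ne'
    have : (δ t : ℂ) ≠ 0 := ofReal_ne_zero.2 (hδ t t0).ne'
    have h := hk1 t ht
    have dn := ne0 (hp t t0 _ (hw t t0)) (hp t t0 _ o).le
    rw [g0 t t0, g1 t t0] at h dn
    simp only [Function.comp, mem_ofPred_eq]
    generalize hD : 1 + (δ t : ℂ) + B t * (δ t * t ^ 2) + conj (1 + A t * (δ t * t ^ 2)) = Dn at h dn ⊢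
    rw [show 1 - (1 + (δ t : ℂ) + B t * (δ t * t ^ 2) - (1 + A t * (δ t * t ^ 2))) / (1 + δ t - 1) *
        (1 + δ t + conj 1) / Dn = t ^ 2 * ((δ t * (B t + conj (A t)) - (B t - A t) * (2 + δ t)) / Dn) by
      simp only [map_add, map_mul, map_pow, conj_ofReal, map_one] at hD ⊢
      rw [add_sub_cancel_left]; field_simp; linear_combination (-δ t) * hD,
      show ((t⁻¹ : ℝ) : ℂ) + conj (1 + (δ t : ℂ)) = (1 + t * (1 + δ t)) / t by
        simp; field_simp, norm_mul, norm_div, norm_pow, norm_real, Real.norm_eq_abs,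
      abs_of_pos t0, ofReal_re, add_re, ofReal_re, one_re] at h
    rw [norm_div (k t), norm_real, Real.norm_eq_abs, abs_of_pos t0, div_le_iff₀ t0]
    have := mul_nonneg (norm_nonneg (k t)) (hδ t t0).le
    generalize ‖(1 : ℂ) + _ * _‖ = N1 at h ⊢
    generalize ‖_ / Dn‖ = N2 at h ⊢
    field_simp at h
    nlinarith
  have tr := tt.prodMk_nhds (td.prodMk_nhds (tA.prodMk_nhds tK))
  have cd : ContinuousAt (fun x : ℂ × ℂ × ℂ × ℂ => 2 + x.2.2.2 * (1 - x.1)) (0, d, 0, 0) := by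
    fun_prop
  have ct : ContinuousAt (fun x : ℂ × ℂ × ℂ × ℂ => ((1 + x.2.2.1 * (x.2.1 * x.1 ^ 2)) * (1 + x.1) +
      (1 + conj x.2.2.1 * (x.2.1 * x.1 ^ 2)) * (1 - x.2.2.2 * x.1) * (1 - x.1)) /
      (2 + x.2.2.2 * (1 - x.1))) (0, d, 0, 0) := by
    fun_prop (disch := simp)
  have := ct.tendsto.comp tr
  simp only [map_zero, add_zero, mul_zero, sub_zero, zero_mul, mul_one, one_add_one_eq_two,
    div_self (two_ne_zero' ℂ)] at this
  refine this.congr' ?_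
  filter_upwards [self_mem_nhdsWithin, (cd.tendsto.comp tr).eventually_ne (show _ ≠ (0 : ℂ) by simp)]
    with t ht hn
  have t0 : (0 : ℝ) < t := ht
  have : (t : ℂ) ≠ 0 := ofReal_ne_zero.2 t0.ne'
  have h := hk2 t ht
  rw [g0 t t0] at h
  simp only [Function.comp] at hn ⊢
  simp only [map_add, map_mul, map_pow, conj_ofReal, map_one] at h
  rw [div_eq_iff hn]
  generalize g t _ = τ at h ⊢
  push_cast at h ⊢
  field_simp at h ⊢
  linear_combination (-1) * h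

variable {ι : Type} [Fintype ι]

def Hn (ι : Type) : Set (ι → ℂ) := {u | ∀ i, u i ∈ HP}

lemma psp {T : (ι → ℂ) → ℂ} (hd : DifferentiableOn ℂ T (Hn ι)) (hp : ∀ u ∈ Hn ι, 0 < (T u).re)
    {u v : ι → ℂ} (hu : u ∈ Hn ι) (hv : v ∈ Hn ι) {κ : ℝ} (k0 : 0 < κ) (k1 : κ < 1)
    (h : ∀ i, κ * ‖u i + conj (v i)‖ ^ 2 ≤ 4 * (u i).re * (v i).re) : κ * (T u).re ≤ 4 * (T v).re := by
  obtain ⟨ρ, r0, r1, r2⟩ : ∃ ρ : ℝ, 0 < ρ ∧ ρ < 1 ∧ ρ ^ 2 = 1 - κ :=
    ⟨√(1 - κ), Real.sqrt_pos.2 (by linarith), Real.sqrt_lt' one_pos |>.2 (by linarith),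
      Real.sq_sqrt (by linarith)⟩
  have n1 := fun i => ne0 (hu i) (hv i).le
  let c : ι → ℂ := fun i => (u i - v i) / (u i + conj (v i)) / ρ
  have c1 : ∀ i, ‖c i‖ ≤ 1 := fun i => by
    simp only [c, norm_div, norm_real, Real.norm_eq_abs, abs_of_pos r0]
    rw [div_le_one r0, div_le_iff₀ (norm_pos_iff.2 (n1 i)), ← sq_le_sq₀ (norm_nonneg _) (by positivity)]
    nlinarith [nsq (u i) (v i), h i]
  have cz : ∀ ζ ∈ ball (0 : ℂ) 1, ∀ i, ‖c i * ζ‖ < 1 := fun ζ h i => by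
    rw [norm_mul]; exact mul_lt_one_of_nonneg_of_lt_one_right (c1 i) (norm_nonneg _)
      (mem_ball_zero_iff.1 h)
  have o : ∀ i, ∀ ζ ∈ ball (0 : ℂ) 1, 1 - c i * ζ ≠ 0 := fun i ζ h e => by
    have := cz ζ h i
    rw [← sub_eq_zero.1 e] at this; simp at this
  let σ : ℂ → ι → ℂ := fun ζ i => (v i + conj (v i) * (c i * ζ)) / (1 - c i * ζ)
  have m : MapsTo σ (ball 0 1) (Hn ι) := fun ζ h i => by
    have h1 : normSq (c i * ζ) < 1 := by
      rw [normSq_eq_norm_sq]; exact pow_lt_one₀ (norm_nonneg _) (cz ζ h i) two_ne_zero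
    have h2 := normSq_pos.2 (o i ζ h)
    simp only [HP, σ, mem_ofPred_eq, div_re, ← add_div]
    refine div_pos ?_ h2
    generalize c i * ζ = w at h1
    simp [normSq_apply] at h1 ⊢
    nlinarith [mul_pos (show 0 < (v i).re from hv i) (sub_pos.2 h1)]
  have d := hd.comp (differentiableOn_pi.2 fun i => by fun_prop (disch := exact o i)) m
  have lt : ‖(ρ : ℂ)‖ < 1 := by rwa [norm_real, Real.norm_eq_abs, abs_of_pos r0]
  have k := Complex.norm_le_norm_of_mapsTo_ball (R := 1)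
    (f := fun ζ => (T (σ ζ) - T v) / (T (σ ζ) + conj (T v)))
    ((d.sub_const _).div (d.add_const _) fun ζ h => ne0 (hp _ (m h)) (hp _ hv).le) (fun ζ h => by
      rw [mem_closedBall_zero_iff, norm_div]
      exact div_le_one_of_le₀ (nle (hp _ (m h)).le (hp _ hv).le) (norm_nonneg _)) (by simp [σ]) lt
  have e : σ ρ = u := by
    ext i
    have := n1 i
    simp only [σ]
    rw [div_eq_iff (o i _ (mem_ball_zero_iff.2 lt))]
    simp only [c, div_mul_cancel₀ _ (ofReal_ne_zero.2 r0.ne')]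
    field_simp; ring
  rw [e, norm_div, div_le_iff₀ (norm_pos_iff.2 (ne0 (hp _ hu) (hp _ hv).le)), norm_real,
    Real.norm_eq_abs, abs_of_pos r0, ← sq_le_sq₀ (norm_nonneg _) (by positivity), mul_pow, r2] at k
  have a := nsq (T u) (T v)
  have b : (T u).re ^ 2 ≤ ‖T u + conj (T v)‖ ^ 2 := pow_le_pow_left₀ (hp u hu).le
    (le_trans (by simpa using (hp v hv).le) (re_le_norm _)) 2
  have := hp u hu
  nlinarith

lemma julia {k : ℂ → ℂ} (hd : DifferentiableOn ℂ k HP) (hp : ∀ u ∈ HP, 0 ≤ (k u).re) {B C : ℝ}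
    (h : ∀ x : ℝ, 0 < x → B * x - C ≤ (k x).re) {r : ℝ} (hr : 0 < r) : B * r ≤ (k r).re := by
  refine le_of_forall_pos_le_add fun η hη => ?_
  have t : Tendsto (fun e : ℝ => 4 * r / (1 + e * r) ^ 2 * (B - e * C)) (𝓝[>] 0) (𝓝 (4 * (B * r))) :=
    (ContinuousAt.tendsto (by fun_prop (disch := simp))).mono_left nhdsWithin_le_nhds |>.trans_eq
      (by simp; ring_nf)
  have t2 : ∀ᶠ e in 𝓝[>] (0 : ℝ), e * r < 1 := (((continuous_mul_const r).tendsto' 0 0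
    (by simp)).mono_left nhdsWithin_le_nhds).eventually (gt_mem_nhds one_pos)
  have := le_of_tendsto t (b := 4 * ((k r).re + η)) (by
    filter_upwards [self_mem_nhdsWithin, t2] with e he h2
    have e0 : (0 : ℝ) < e := he
    have := psp (ι := Unit) (T := fun u => k (u ()) + η) ((hd.comp (f := fun u : Unit → ℂ => u ())
      (by fun_prop) fun u (hu : u ∈ Hn Unit) => hu ()).add_const _) (fun u hu => by
        simpa using add_pos_of_nonneg_of_pos (hp _ (hu ())) hη) (u := fun _ => (e⁻¹ : ℝ))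
      (v := fun _ => r) (fun _ => show 0 < (((e⁻¹ : ℝ) : ℂ)).re by rw [ofReal_re]; positivity)
      (fun _ => hr) (κ := 4 * r * e / (1 + e * r) ^ 2) (by positivity)
      (by rw [div_lt_one (by positivity)]; nlinarith [pow_pos (sub_pos.2 h2) 2]) (fun _ => by
        rw [conj_ofReal, ← ofReal_add, norm_real, Real.norm_eq_abs, sq_abs, ofReal_re, ofReal_re]
        apply le_of_eq; field_simp)
    simp only [add_re, ofReal_re] at this
    refine le_trans ?_ this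
    rw [show 4 * r / (1 + e * r) ^ 2 * (B - e * C) = 4 * r * e / (1 + e * r) ^ 2 * (B * e⁻¹ - C) by
      field_simp]
    gcongr
    linarith [h e⁻¹ (by positivity)])
  linarith

lemma ident2 {f : (ι → ℂ) → ℂ} (hd : DifferentiableOn ℂ f (Hn ι)) {w d : ι → ℂ} (hw : w ∈ Hn ι)
    (h : ∀ᶠ s : ℝ in 𝓝[>] 0, f (w + (s : ℂ) • d) = 0) {s : ℂ} (hs : w + s • d ∈ Hn ι) :
    f (w + s • d) = 0 := by
  have op : IsOpen {s : ℂ | w + s • d ∈ Hn ι} := by
    rw [show {s : ℂ | w + s • d ∈ Hn ι} = ⋂ i, (fun s : ℂ => w i + s * d i) ⁻¹' HP by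
      ext s; simp [Hn]]
    exact isOpen_iInter_of_finite fun i => HP_open.preimage (by fun_prop)
  have cv : Convex ℝ {s : ℂ | w + s • d ∈ Hn ι} := fun a ha b hb x y x0 y0 xy i => by
    have := convex_halfSpace_re_gt 0 (ha i) (hb i) x0 y0 xy
    rwa [show x • (w + a • d) i + y • (w + b • d) i = (w + (x • a + y • b) • d) i by
      simp only [Pi.add_apply, Pi.smul_apply, smul_eq_mul, real_smul]
      have xy' : (x : ℂ) + y = 1 := by exact_mod_cast xy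
      linear_combination (w i) * xy'] at this
  refine ((hd.comp (f := fun s : ℂ => w + s • d) (by fun_prop) fun s hs => hs).analyticOnNhd
    op).eqOn_zero_of_preconnected_of_frequently_eq_zero
    cv.isPreconnected (z₀ := 0) (show w + (0 : ℂ) • d ∈ Hn ι by simpa using hw) ?_ hs
  have : Tendsto (fun t : ℝ => (t : ℂ)) (𝓝[>] 0) (𝓝[≠] 0) :=
    tendsto_nhdsWithin_iff.2 ⟨(continuous_ofReal.tendsto' 0 0 rfl).mono_left
      nhdsWithin_le_nhds, mem_of_superset self_mem_nhdsWithin fun t ht => by simpa using ne_of_gt ht⟩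
  exact this.frequently h.frequently

lemma ident3 {f : (ι → ℂ) → ℂ} (hd : DifferentiableOn ℂ f (Hn ι)) {w : ι → ℂ} (hw : w ∈ Hn ι)
    (h : ∀ d : ι → ℝ, ∀ᶠ s : ℝ in 𝓝[>] 0, f (w + (s : ℂ) • fun i => (d i : ℂ)) = 0) :
    ∀ u ∈ Hn ι, f u = 0 := fun u hu => by
  have a : ∀ v ∈ Hn ι, (∀ i, (v i).im = (w i).im) → f v = 0 := fun v hv e => by
    have e2 : w + (1 : ℂ) • (fun i => (((v i).re - (w i).re : ℝ) : ℂ)) = v := by
      ext1 i; apply Complex.ext <;> simp [e]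
    simpa only [e2] using ident2 hd hw (h fun i => (v i).re - (w i).re) (s := 1) (e2.symm ▸ hv)
  let v : ι → ℂ := fun i => ⟨(u i).re, (w i).im⟩
  let d : ι → ℂ := fun i => ((u i).im - (w i).im : ℝ)
  have e2 : v + I • d = u := by
    ext1 i; apply Complex.ext <;> simp [v, d]
  have c : ∀ i, ContinuousAt (fun s : ℝ => ((v + (s : ℂ) • d) i).re) 0 := fun i => by fun_prop
  rw [← e2]
  refine ident2 hd (w := v) (fun i => hu i) ?_ (e2.symm ▸ hu)
  filter_upwards [nhdsWithin_le_nhds (eventually_all.2 fun i => continuousAt_const.eventually_lt (c i)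
    (show (0 : ℝ) < _ by simpa [v] using (show 0 < (u i).re from hu i)))] with s hs
  exact a _ hs fun i => by simp [v, d]

end Pool.Agent.H.MP_96bc49_an
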