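import Pool.Agent.H.MP_96bc49_an.A

set_option autoImplicit false
open Set Filter Topology Metric Complex Asymptotics
open scoped ComplexConjugate

namespace Pool.Agent.H.MP_96bc49_an
open Pool.Agent.H.MP_f98e31_an

variable {ι : Type} [Fintype ι] {T : (ι → ℂ) → ℂ} {β θ : ι → ℝ}

lemma path {u₀ : ι → ℂ} (ho : (fun u => T u - ∑ i, u i) =o[𝓝[Hn ι] u₀] fun u => ‖u - u₀‖ ^ 3)
    {z : ℝ → ι → ℂ} (hz : ∀ e > 0, z e ∈ Hn ι) {C : ℝ} (hC : ∀ e > 0, ‖z e - u₀‖ ≤ C * e) :
    Tendsto (fun e : ℝ => (T (z e) - ∑ i, z e i) / e ^ 3) (𝓝[>] 0) (𝓝 0) := by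
  have o : (fun e => z e - u₀) =O[𝓝[>] 0] fun e : ℝ => (e : ℂ) :=
    IsBigO.of_bound C (mem_of_superset self_mem_nhdsWithin fun e he => by
      simpa [abs_of_pos (show (0 : ℝ) < e from he)] using hC e he)
  have zt : Tendsto z (𝓝[>] 0) (𝓝[Hn ι] u₀) := tendsto_nhdsWithin_iff.2
    ⟨tendsto_sub_nhds_zero_iff.1 (o.trans_tendsto ((continuous_ofReal.tendsto' 0 0 rfl).mono_left
      nhdsWithin_le_nhds)), mem_of_superset self_mem_nhdsWithin hz⟩
  exact ((ho.comp_tendsto zt).trans_isBigO (o.norm_left.pow 3)).tendsto_div_nhds_zero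

lemma far [Nonempty ι] (hd : DifferentiableOn ℂ T (Hn ι)) (hp : ∀ u ∈ Hn ι, 0 < (T u).re)
    (hβ : ∀ i, 0 ≤ β i) (ho : (fun u => T u - ∑ i, u i) =o[𝓝[Hn ι] fun i => β i + θ i * I]
      fun u => ‖u - fun i => β i + θ i * I‖ ^ 3) {a : ι → ℝ} (ha : ∀ i, 0 < a i) :
    Tendsto (fun e : ℝ => e * ((T (fun i => (β i + e * a i : ℝ) * (e⁻¹ : ℝ) + θ i * I) -
      (∑ i, θ i : ℝ) * I) / (∑ i, (β i + e * a i) : ℝ))) (𝓝[>] 0) (𝓝 1) := by
  have p : ∀ e > 0, ∀ i, 0 < β i + e * a i := fun e he i =>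
    add_pos_of_nonneg_of_pos (hβ i) (mul_pos he (ha i))
  have S0 : ∀ e > 0, 0 < ∑ i, (β i + e * a i) := fun e he =>
    Finset.sum_pos (fun i _ => p e he i) Finset.univ_nonempty
  have m : ∀ e > 0, MapsTo (fun (y : ℂ) i => (β i + e * a i : ℝ) * y + θ i * I) HP (Hn ι) :=
    fun e he y hy i => by simpa [HP] using mul_pos (p e he i) hy
  obtain ⟨d, d0, td⟩ : ∃ d, 0 ≤ d ∧ Tendsto (fun e : ℝ => e / ∑ i, (β i + e * a i)) (𝓝[>] 0) (𝓝 d) := by
    rcases (Finset.sum_nonneg fun i (_ : i ∈ Finset.univ) => hβ i).eq_or_lt with h | h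
    · refine ⟨1 / ∑ i, a i, div_nonneg zero_le_one (Finset.sum_nonneg fun i _ => (ha i).le),
        tendsto_const_nhds.congr' (mem_of_superset self_mem_nhdsWithin fun e he => ?_)⟩
      simp only [mem_ofPred_eq, Finset.sum_add_distrib, ← h, zero_add, ← Finset.mul_sum]
      rw [div_mul_eq_div_div, div_self (ne_of_gt he)]
    · exact ⟨0, le_rfl, (ContinuousAt.tendsto (by fun_prop (disch := simpa using h.ne'))).mono_left
        nhdsWithin_le_nhds |>.trans_eq (by simp)⟩
  have gen : ∀ j : ℝ, 0 ≤ j → Tendsto (fun e : ℝ => ((T (fun i => (β i + e * a i : ℝ) *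
      (1 + j * (e / ∑ i, (β i + e * a i) : ℝ)) + θ i * I) - (∑ i, θ i : ℝ) * I) /
      (∑ i, (β i + e * a i) : ℝ) - (1 + j * (e / ∑ i, (β i + e * a i) : ℝ))) /
      ((e / ∑ i, (β i + e * a i) : ℝ) * e ^ 2)) (𝓝[>] 0) (𝓝 0) := fun j hj => by
    refine (path ho (z := fun e i => (β i + e * a i : ℝ) * (1 + j * (e / ∑ i, (β i + e * a i) : ℝ)) +
      θ i * I) (fun e he => m e he ?_) (C := ∑ i, a i + j) fun e he => ?_).congr'
      (mem_of_superset self_mem_nhdsWithin fun e he => ?_)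
    · have := S0 e he
      simp only [HP, mem_ofPred_eq, ← ofReal_mul, add_re, one_re, ofReal_re]; positivity
    · have s := S0 e he
      have A := Finset.sum_nonneg fun i (_ : i ∈ Finset.univ) => (ha i).le
      refine (pi_norm_le_iff_of_nonneg (by positivity)).2 fun i => ?_
      have h1 : β i + e * a i ≤ ∑ i, (β i + e * a i) :=
        Finset.single_le_sum (fun i _ => (p e he i).le) (Finset.mem_univ i)
      have h2 : a i ≤ ∑ i, a i := Finset.single_le_sum (fun i _ => (ha i).le) (Finset.mem_univ i)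
      have := p e he i; have := ha i
      rw [show ((fun i => ((β i + e * a i : ℝ) : ℂ) * (1 + j * (e / ∑ i, (β i + e * a i) : ℝ)) +
          θ i * I) - fun i => β i + θ i * I : ι → ℂ) i = (e * a i + j * e * ((β i + e * a i) /
          ∑ i, (β i + e * a i)) : ℝ) by simp only [Pi.sub_apply]; push_cast; ring, norm_real,
        Real.norm_eq_abs, abs_of_nonneg (by positivity)]
      nlinarith [mul_le_mul_of_nonneg_left ((div_le_one s).2 h1) (mul_nonneg hj he.le)]
    · have s := ofReal_ne_zero.2 (S0 e he).ne'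
      have := ofReal_ne_zero.2 (ne_of_gt he)
      simp only [mem_ofPred_eq, Finset.sum_add_distrib (f := fun i => _ * _), ← Finset.sum_mul,
        ← ofReal_sum]
      generalize T _ = τ
      generalize ∑ i, (β i + e * a i) = S at *
      push_cast; field_simp; ring
  exact lq (g := fun e y => (T (fun i => (β i + e * a i : ℝ) * y + θ i * I) - (∑ i, θ i : ℝ) * I) /
    (∑ i, (β i + e * a i) : ℝ)) (fun e he => ((hd.comp (by fun_prop) (m e he)).sub_const _).div_const _)
    (fun e he u hu => by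
      rw [div_ofReal_re]; exact div_pos (by simpa using hp _ (m e he hu)) (S0 e he))
    (fun e he => div_pos he (S0 e he)) d0 td (by simpa using gen 0 le_rfl)
    (by simpa using gen 1 zero_le_one)

def Adm (T : (ι → ℂ) → ℂ) (a : ι → ℝ) (A : ℝ) : Prop := ∀ P : ι → ℂ, (∀ i, a i < (P i).re) → A ≤ (T P).re

lemma adm1 [Nonempty ι] (hd : DifferentiableOn ℂ T (Hn ι)) (hp : ∀ u ∈ Hn ι, 0 < (T u).re)
    (hβ : ∀ i, 0 ≤ β i) (ho : (fun u => T u - ∑ i, u i) =o[𝓝[Hn ι] fun i => β i + θ i * I]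
      fun u => ‖u - fun i => β i + θ i * I‖ ^ 3) {r : ℝ} (hr : 0 < r) :
    Adm T (fun i => r * β i) (r * ∑ i, β i) := fun P hP => by
  have P0 : P ∈ Hn ι := fun i => (mul_nonneg hr.le (hβ i)).trans_lt (hP i)
  have t1 : Tendsto (fun e : ℝ => ∑ i, (β i + e * 1)) (𝓝[>] 0) (𝓝 (∑ i, β i)) :=
    (Continuous.tendsto' (by fun_prop) 0 _ (by simp)).mono_left nhdsWithin_le_nhds
  have t := (((continuous_re.tendsto _).comp (far hd hp hβ ho (a := 1) fun _ => one_pos)).mul
    t1).const_mul r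
  rw [one_re, one_mul] at t
  refine le_of_tendsto t ?_
  have t2 : ∀ᶠ e in 𝓝[>] (0 : ℝ), 4 * r * e < 1 := ((Continuous.tendsto' (by fun_prop) 0 0
    (by simp)).mono_left nhdsWithin_le_nhds).eventually (gt_mem_nhds one_pos)
  have t3 : ∀ i, ∀ᶠ e in 𝓝[>] (0 : ℝ), 4 * r * e * ‖((β i + e * 1 : ℝ) : ℂ) * (e⁻¹ : ℝ) + θ i * I +
      conj (P i)‖ ^ 2 ≤ 4 * (((β i + e * 1 : ℝ) : ℂ) * (e⁻¹ : ℝ) + θ i * I).re * (P i).re := fun i => by
    rcases (hβ i).eq_or_lt with h | h
    · have c : ContinuousAt (fun e : ℝ => r * e * ‖1 + θ i * I + conj (P i)‖ ^ 2) 0 := by fun_prop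
      filter_upwards [self_mem_nhdsWithin, nhdsWithin_le_nhds (c.eventually_lt continuousAt_const
        (show _ < (P i).re by simpa using (show 0 < (P i).re from P0 i)))] with e he h2
      rw [← h, ← ofReal_mul, zero_add, mul_one, mul_inv_cancel₀ (ne_of_gt he)]
      simp; linarith
    · have c : ContinuousAt (fun e : ℝ => r * ‖β i + e * (1 + θ i * I + conj (P i))‖ ^ 2) 0 := by
        fun_prop
      have c2 : ContinuousAt (fun e : ℝ => (β i + e) * (P i).re) 0 := by fun_prop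
      filter_upwards [self_mem_nhdsWithin, nhdsWithin_le_nhds (c.eventually_lt c2
        (by simp; nlinarith [hP i]))] with e he h2
      have e0 : (0 : ℝ) < e := he
      have := ofReal_ne_zero.2 e0.ne'
      rw [show ((β i + e * 1 : ℝ) : ℂ) * (e⁻¹ : ℝ) + θ i * I + conj (P i) =
        (β i + e * (1 + θ i * I + conj (P i))) / e by push_cast; field_simp; ring, norm_div,
        norm_real, Real.norm_eq_abs, abs_of_pos e0, ← ofReal_mul]
      simp only [add_re, ofReal_re, mul_re, I_re, I_im, ofReal_im]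
      field_simp
      nlinarith
  filter_upwards [self_mem_nhdsWithin, t2, eventually_all.2 t3] with e he h2 h3
  have e0 : (0 : ℝ) < e := he
  have p : ∀ i, 0 < β i + e * 1 := fun i => by linarith [hβ i]
  have := psp hd hp (fun i => by simpa [HP] using mul_pos (p i) (inv_pos.2 e0)) P0
    (by positivity) h2 h3
  have s : 0 < ∑ i, (β i + e * 1) := Finset.sum_pos (fun i _ => p i) Finset.univ_nonempty
  simp only [Function.comp, Pi.one_apply, re_ofReal_mul, div_ofReal_re, sub_re, I_re, mul_zero,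
    sub_zero, mul_assoc, div_mul_cancel₀ _ s.ne']
  linarith

lemma adm2 (hd : DifferentiableOn ℂ T (Hn ι)) {a γ : ι → ℝ} {A B r : ℝ} (h : Adm T a A)
    (ha : ∀ i, 0 ≤ a i) (hγ : ∀ i, 0 ≤ γ i) (h' : ∀ x > 0, Adm T (fun i => x * γ i) (x * B))
    (hr : 0 < r) : Adm T (fun i => a i + r * γ i) (A + r * B) := fun P hP => by
  have k : ∀ y ∈ HP, ∀ i, a i + y.re * γ i < (P i + (y - r) * γ i).re := fun y hy i => by
    simp; linarith [hP i]
  have k' : ∀ y ∈ HP, ∀ i, a i < (P i + (y - r) * γ i).re := fun y hy i =>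
    (le_add_of_nonneg_right (mul_nonneg (le_of_lt hy) (hγ i))).trans_lt (k y hy i)
  have := julia (k := fun y => T (fun i => P i + (y - r) * γ i) - A) (B := B) (C := A)
    ((hd.comp (by fun_prop) fun y hy i => (ha i).trans_lt (k' y hy i)).sub_const _)
    (fun y hy => by simpa using h _ (k' y hy)) (fun x hx => by
      have := h' x hx _ fun i => (le_add_of_nonneg_left (ha i)).trans_lt (k x hx i)
      simp only [sub_re, ofReal_re]; linarith) hr
  simp at this
  linarith

theorem coreN [DecidableEq ι] (hd : DifferentiableOn ℂ T (Hn ι)) (hp : ∀ u ∈ Hn ι, 0 < (T u).re)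
    (hs : ∀ σ : Equiv.Perm ι, ∀ u, T (u ∘ σ) = T u) (hβ : ∀ i, 0 ≤ β i) {i₀ : ι} (h0 : β i₀ = 0)
    (ho : (fun u => T u - ∑ i, u i) =o[𝓝[Hn ι] fun i => β i + θ i * I]
      fun u => ‖u - fun i => β i + θ i * I‖ ^ 3) : ∀ u ∈ Hn ι, T u = ∑ i, u i := by
  have : Nonempty ι := ⟨i₀⟩
  have hD : DifferentiableOn ℂ (fun u => T u - ∑ i, u i) (Hn ι) := hd.sub (by fun_prop)
  simp only [← sub_eq_zero (a := T _)]
  by_cases hB : ∀ i, β i = 0
  · have k : ∀ a : ι → ℝ, (∀ i, 0 < a i) → T (fun i => a i + θ i * I) - ∑ i, (a i + θ i * I) = 0 :=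
      fun a ha => by
        have A := ofReal_ne_zero.2 (Finset.sum_pos (fun i _ => ha i) Finset.univ_nonempty).ne'
        have := tendsto_nhds_unique ((far hd hp hβ ho ha).congr' (mem_of_superset self_mem_nhdsWithin
          fun e he => ?_)) (tendsto_const_nhds (x := (T (fun i => a i + θ i * I) -
            (∑ i, θ i : ℝ) * I) / (∑ i, a i : ℝ)))
        · rw [eq_div_iff A] at this
          rw [Finset.sum_add_distrib, ← Finset.sum_mul, ← ofReal_sum, ← ofReal_sum]
          linear_combination -this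
        · have e0 : e ≠ 0 := ne_of_gt he
          have := ofReal_ne_zero.2 e0
          have k : ∀ x : ℝ, ((e * x : ℝ) : ℂ) * (e⁻¹ : ℝ) = x := fun x => by push_cast; field_simp
          simp only [mem_ofPred_eq, hB, zero_add, k, ← Finset.mul_sum]
          generalize T _ = τ
          rw [ofReal_mul e]; field_simp
    refine ident3 hD (w := fun i => 1 + θ i * I) (fun i => by simp [HP]) fun d => ?_
    have c : ∀ i, ContinuousAt (fun s : ℝ => 1 + s * d i) 0 := fun i => by fun_prop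
    filter_upwards [nhdsWithin_le_nhds (eventually_all.2 fun i => continuousAt_const.eventually_lt
      (c i) (show (0 : ℝ) < _ by simp))] with s hs
    rw [← k _ hs, show ((fun i => 1 + θ i * I) + (s : ℂ) • fun i => (d i : ℂ)) =
      fun i => ((1 + s * d i : ℝ) : ℂ) + θ i * I by ext i; simp; ring]
  obtain ⟨i₁, h1⟩ := not_forall.1 hB
  replace h1 := (hβ i₁).lt_of_ne' h1
  have a1 : ∀ σ : Equiv.Perm ι, ∀ x > 0, Adm T (fun i => x * β (σ i)) (x * ∑ i, β i) :=
    fun σ x hx P hP => by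
      rw [← hs σ.symm]
      exact adm1 hd hp hβ ho hx _ fun i => by simpa using hP (σ.symm i)
  have a2 : ∀ c : Equiv.Perm ι → ℝ, (∀ σ, 0 < c σ) → ∀ s : Finset (Equiv.Perm ι),
      Adm T (fun i => β i + ∑ σ ∈ s, c σ * β (σ i)) ((1 + ∑ σ ∈ s, c σ) * ∑ i, β i) := fun c hc s => by
    induction s using Finset.induction_on with
    | empty => simpa using adm1 hd hp hβ ho one_pos
    | insert σ s hσ ih =>
      have := adm2 hd ih (fun i => add_nonneg (hβ i) (Finset.sum_nonneg fun σ _ =>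
        mul_nonneg (hc σ).le (hβ _))) (fun i => hβ _) (a1 σ) (hc σ)
      simp only [Finset.sum_insert hσ]
      convert this using 1
      · ext i; ring
      · ring
  have pos : ∀ c : Equiv.Perm ι → ℝ, (∀ σ, 0 < c σ) → ∀ i, 0 < ∑ σ, c σ * β (σ i) := fun c hc i =>
    Finset.sum_pos' (fun σ _ => mul_nonneg (hc σ).le (hβ _))
      ⟨Equiv.swap i i₁, Finset.mem_univ _, mul_pos (hc _) (by simpa using h1)⟩
  have a3 : ∀ c : Equiv.Perm ι → ℝ, (∀ σ, 0 < c σ) →
      T (fun i => β i + θ i * I + 1 * (∑ σ, c σ * β (σ i) : ℝ)) -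
        ∑ i, (β i + θ i * I + 1 * (∑ σ, c σ * β (σ i) : ℝ)) = 0 := fun c hc => by
    set a : ι → ℝ := fun i => ∑ σ, c σ * β (σ i) with ha
    have m : MapsTo (fun (y : ℂ) i => β i + θ i * I + y * a i) HP (Hn ι) := fun y hy i => by
      simpa [HP] using add_pos_of_nonneg_of_pos (hβ i) (mul_pos hy (pos c hc i))
    have A : ∑ i, a i = (∑ σ, c σ) * ∑ i, β i := by
      rw [Finset.sum_comm, Finset.sum_mul]
      exact Finset.sum_congr rfl fun σ _ => by rw [← Finset.mul_sum, Equiv.sum_comp σ β]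
    have hk := fun (e : ℝ) (he : 0 < e) => harn (hD.comp (by fun_prop) m) (fun y hy => by
      have A0 := Finset.sum_pos (fun i _ => pos c hc i) Finset.univ_nonempty
      have : ∀ s ∈ Ioo 0 y.re, ∑ i, β i + s * ∑ i, a i ≤ (T fun i => β i + θ i * I + y * a i).re :=
        fun s hs => by
          have := a2 (fun σ => s * c σ) (fun σ => mul_pos hs.1 (hc σ)) Finset.univ
            (fun i => β i + θ i * I + y * a i) fun i => by
              simp only [mul_assoc, ← Finset.mul_sum]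
              simpa using mul_lt_mul_of_pos_right hs.2 (pos c hc i)
          rw [← Finset.mul_sum] at this
          rw [A]; linarith
      have := le_of_tendsto (((Continuous.tendsto (f := fun s : ℝ => ∑ i, β i + s * ∑ i, a i)
        (by fun_prop) y.re).mono_left
        (nhdsWithin_le_nhds (s := Iio y.re)))) (mem_of_superset (Ioo_mem_nhdsLT hy) this)
      simpa [Finset.sum_add_distrib, Finset.mul_sum] using this) (u := 1) (v := e) (by simp [HP]) he
    have t := (path ho (z := fun e i => β i + θ i * I + e * a i) (fun e he => m he) (C := ‖a‖)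
      fun e he => (pi_norm_le_iff_of_nonneg (by positivity)).2 fun i => by
        simpa [abs_of_pos he, mul_comm e] using mul_le_mul_of_nonneg_right (norm_le_pi_norm a i) he.le).norm
    have t2 : Tendsto (fun e : ℝ => ((1 + e) * e) ^ 2) (𝓝[>] 0) (𝓝 0) :=
      (Continuous.tendsto' (by fun_prop) 0 _ (by simp)).mono_left nhdsWithin_le_nhds
    refine norm_le_zero_iff.1 (ge_of_tendsto (by simpa using t2.mul t)
      (mem_of_superset self_mem_nhdsWithin fun e he => ?_))
    have e0 : (0 : ℝ) < e := he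
    have := hk e e0
    rw [conj_ofReal, ← ofReal_one, ← ofReal_add, norm_real, Real.norm_eq_abs, sq_abs, ofReal_re,
      ofReal_re] at this
    simp only [mem_ofPred_eq, abs_of_pos e0]
    simp only [Function.comp, ofReal_one, one_mul] at this
    generalize ‖T (fun i => β i + θ i * I + e * a i) - _‖ = N at this ⊢
    rw [show ((1 + e) * e) ^ 2 * (N / e ^ 3) = (1 + e) ^ 2 * N / e by field_simp,
      le_div_iff₀ e0]
    simpa [a] using this
  have surj : ∀ d : ι → ℝ, ∃ c : Equiv.Perm ι → ℝ, ∀ i, d i = ∑ σ, c σ * β (σ i) := fun d => by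
    have B0 : 0 < ∑ i, β i := Finset.sum_pos' (fun i _ => hβ i) ⟨i₁, Finset.mem_univ _, h1⟩
    let V := Submodule.span ℝ (range fun (σ : Equiv.Perm ι) i => β (σ i))
    have e1 : ∀ i j, (Pi.single i 1 - Pi.single j 1 : ι → ℝ) ∈ V := fun i j => by
      rcases eq_or_ne i j with rfl | hij
      · simp
      have ne : i₁ ≠ i₀ := fun e => by rw [e, h0] at h1; exact lt_irrefl _ h1
      obtain ⟨σ, s1, s2⟩ : ∃ σ : Equiv.Perm ι, σ i = i₁ ∧ σ j = i₀ :=
        ⟨(Equiv.swap i i₁).trans (Equiv.swap (Equiv.swap i i₁ j) i₀), by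
          simp only [Equiv.trans_apply, Equiv.swap_apply_left]
          exact Equiv.swap_apply_of_ne_of_ne (fun e => hij ((Equiv.swap i i₁).injective
            (by rw [← e, Equiv.swap_apply_left]))) ne, by simp⟩
      convert V.smul_mem (β i₁)⁻¹ (V.sub_mem (Submodule.subset_span ⟨σ, rfl⟩)
        (Submodule.subset_span ⟨(Equiv.swap i j).trans σ, rfl⟩)) using 1
      ext l
      by_cases h2 : l = i
      · simp [h2, hij, s1, s2, h0, h1.ne']
      by_cases h3 : l = j
      · simp [h3, hij.symm, s1, s2, h0, h1.ne']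
      · simp [h2, h3, Equiv.swap_apply_of_ne_of_ne]
    have e2 : ∀ i, (Pi.single i 1 : ι → ℝ) ∈ V := fun i => by
      convert V.smul_mem (∑ i, β i)⁻¹ (V.add_mem (Submodule.subset_span ⟨1, rfl⟩)
        (V.sum_mem fun j (_ : j ∈ Finset.univ) => V.smul_mem (β j) (e1 i j))) using 1
      ext l
      simp [Pi.single_apply, mul_sub, Finset.sum_sub_distrib, ← Finset.sum_mul]
      split_ifs <;> simp [B0.ne']
    obtain ⟨c, hc⟩ := (Submodule.mem_span_range_iff_exists_fun ℝ).1 (show d ∈ V by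
      rw [pi_eq_sum_univ' d]; exact V.sum_mem fun i _ => V.smul_mem _ (e2 i))
    exact ⟨c, fun i => by rw [← hc]; simp⟩
  refine ident3 hD (w := fun i => β i + θ i * I + (∑ σ : Equiv.Perm ι, 1 * β (σ i) : ℝ))
    (fun i => by simpa [HP] using add_pos_of_nonneg_of_pos (hβ i) (pos 1 (fun _ => one_pos) i))
    fun d => ?_
  obtain ⟨c, hc⟩ := surj d
  have cc : ∀ σ, ContinuousAt (fun s : ℝ => 1 + s * c σ) 0 := fun i => by fun_prop
  filter_upwards [nhdsWithin_le_nhds (eventually_all.2 fun σ => continuousAt_const.eventually_lt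
    (cc σ) (show (0 : ℝ) < _ by simp))] with s hs
  rw [← a3 _ hs, show ((fun i => β i + θ i * I + (∑ σ : Equiv.Perm ι, 1 * β (σ i) : ℝ)) +
    (s : ℂ) • fun i => (d i : ℂ)) = fun i => β i + θ i * I + 1 * (∑ σ, (1 + s * c σ) * β (σ i) : ℝ) by
      ext i; simp [hc, add_mul, Finset.sum_add_distrib, Finset.mul_sum, mul_assoc, add_assoc]]

end Pool.Agent.H.MP_96bc49_an
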