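import Pool.Agent.H.MP_96bc49_an.B

set_option autoImplicit false
open Set Filter Topology Metric Complex Asymptotics Polynomial
open scoped ComplexConjugate

namespace Pool.Agent.H.MP_96bc49_an
open Pool.Agent.H.MP_f98e31_an

variable {n : ℕ}

noncomputable def sy (l : Fin n → ℂ) : Fin n → ℂ :=
  fun k => ∑ S ∈ Finset.powersetCard (k + 1) Finset.univ, ∏ i ∈ S, l i

def G (n : ℕ) : Set (Fin n → ℂ) := sy '' {l | ∀ i, ‖l i‖ < 1}

noncomputable def q (z : Fin n → ℂ) : ℂ[X] := 1 + ∑ k, C (z k) * X ^ (k + 1 : ℕ)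

lemma q_sy (l : Fin n → ℂ) : q (sy l) = ∏ i, (1 + C (l i) * X) := by
  rw [Finset.prod_one_add, Finset.sum_powerset, Finset.sum_range_succ', Finset.card_univ,
    Fintype.card_fin, Finset.sum_range, add_comm, q]
  congr 1
  · simp
  · refine Finset.sum_congr rfl fun k _ => ?_
    rw [sy, map_sum, Finset.sum_mul]
    exact Finset.sum_congr rfl fun S hS => by
      rw [Finset.prod_mul_distrib, Finset.prod_const, (Finset.mem_powersetCard.1 hS).2, map_prod]

lemma q_inj {z w : Fin n → ℂ} (h : q z = q w) : z = w := by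
  have : ∀ (z : Fin n → ℂ) (k : Fin n), (q z).coeff (k + 1) = z k := fun z k => by
    simp [q, coeff_one, coeff_X_pow, Fin.val_inj]
  ext k; rw [← this z, h, this]

lemma q0 (z : Fin n → ℂ) : (q z).eval 0 = 1 := by simp [q, eval_finsetSum]

lemma fac : ∀ (n : ℕ) (p : ℂ[X]), p.natDegree ≤ n → p.eval 0 = 1 →
    ∃ l : Fin n → ℂ, p = ∏ i, (1 + C (l i) * X) := by
  intro n
  induction n with
  | zero => exact fun p h h0 => ⟨0, by
      rw [eq_C_of_natDegree_le_zero h] at h0 ⊢; simpa using congrArg C h0⟩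
  | succ n ih =>
    intro p h h0
    by_cases hd : p.degree = 0
    · exact ⟨0, by rw [eq_C_of_degree_eq_zero hd] at h0 ⊢; simpa using congrArg C h0⟩
    obtain ⟨a, ha⟩ := IsAlgClosed.exists_root p hd
    obtain ⟨r, rfl⟩ := dvd_iff_isRoot.2 ha
    have a0 : a ≠ 0 := by rintro rfl; simp at h0
    have r0 : r ≠ 0 := by rintro rfl; simp at h0
    rw [natDegree_mul (X_sub_C_ne_zero a) r0, natDegree_X_sub_C] at h
    obtain ⟨l, hl⟩ := ih (C (-a) * r) ((natDegree_C_mul_le _ _).trans (by omega)) (by simpa using h0)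
    refine ⟨Fin.cons (-a⁻¹) l, ?_⟩
    simp only [Fin.prod_univ_succ, Fin.cons_zero, Fin.cons_succ, ← hl, map_neg]
    have : C a⁻¹ * C a = 1 := by rw [← map_mul, inv_mul_cancel₀ a0, map_one]
    linear_combination (-X * r) * this

lemma ev_sy (l : Fin n → ℂ) (t : ℂ) : (q (sy l)).eval t = ∏ i, (1 + l i * t) := by
  simp [q_sy, eval_prod]

lemma one_add_ne {l t : ℂ} (hl : ‖l‖ < 1) (ht : ‖t‖ ≤ 1) : 1 + l * t ≠ 0 := fun h => by
  have := congrArg norm (eq_neg_of_add_eq_zero_left h)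
  rw [norm_neg, norm_mul, norm_one] at this
  nlinarith [norm_nonneg l]

lemma G_eq : G n = {z | ∀ t ∈ closedBall (0 : ℂ) 1, (q z).eval t ≠ 0} := by
  ext z
  constructor
  · rintro ⟨l, hl, rfl⟩ t ht
    rw [ev_sy]
    exact Finset.prod_ne_zero_iff.2 fun i _ => one_add_ne (hl i) (mem_closedBall_zero_iff.1 ht)
  · intro h
    obtain ⟨l, hl⟩ := fac n (q z) (natDegree_add_le_of_degree_le (by simp)
      (natDegree_sum_le_of_forall_le _ _ fun k _ => (natDegree_C_mul_X_pow_le _ _).trans k.2)) (q0 z)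
    obtain rfl := q_inj (hl.trans (q_sy l).symm)
    refine ⟨l, fun i => lt_of_not_ge fun hi => h (-(l i)⁻¹) ?_ ?_, rfl⟩
    · simpa using inv_le_one_of_one_le₀ hi
    · rw [ev_sy]
      exact Finset.prod_eq_zero (Finset.mem_univ i) (by
        rw [mul_neg, mul_inv_cancel₀ (norm_pos_iff.1 (one_pos.trans_le hi)), add_neg_cancel])

lemma ev_q (z : Fin n → ℂ) (t : ℂ) : (q z).eval t = 1 + ∑ k, z k * t ^ (k + 1 : ℕ) := by
  simp [q, eval_finsetSum]

lemma G_open : IsOpen (G n) := by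
  rw [G_eq, isOpen_iff_mem_nhds]
  intro z hz
  refine (isCompact_closedBall (0 : ℂ) 1).eventually_forall_of_forall_eventually
    (P := fun z t => (q z).eval t ≠ 0) fun t ht => ?_
  have c : Continuous fun x : (Fin n → ℂ) × ℂ => (q x.1).eval x.2 := by
    simp only [ev_q]; fun_prop
  exact c.continuousAt.eventually_ne (hz t ht)

lemma bdry {p : Fin n → ℂ} (hp : p ∈ frontier (G n)) :
    ∃ l : Fin n → ℂ, (∀ i, ‖l i‖ ≤ 1) ∧ (∃ i, ‖l i‖ = 1) ∧ sy l = p := by
  rw [G_open.frontier_eq] at hp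
  obtain ⟨l, hl, rfl⟩ := closure_minimal (t := sy '' closedBall 0 1)
    (image_mono fun l hl => mem_closedBall_zero_iff.2
      ((pi_norm_le_iff_of_nonneg zero_le_one).2 fun i => (hl i).le))
    ((isCompact_closedBall _ _).image (by unfold sy; fun_prop)).isClosed hp.1
  have h := (pi_norm_le_iff_of_nonneg zero_le_one).1 (mem_closedBall_zero_iff.1 hl)
  refine ⟨l, h, by_contra fun hh => hp.2 ⟨l, fun i => (h i).lt_of_ne fun e => hh ⟨i, e⟩, rfl⟩, rfl⟩

noncomputable def M (t u : ℂ) : ℂ := (1 - u) / (1 + u) / t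
noncomputable def N (t l : ℂ) : ℂ := (1 - l * t) / (1 + l * t)
noncomputable def Ps (t : ℂ) (z : Fin n → ℂ) : ℂ := n - 2 * t * ((derivative (q z)).eval t / (q z).eval t)

lemma ld {t : ℂ} {l : Fin n → ℂ} (h : ∀ i, 1 + l i * t ≠ 0) (s : Finset (Fin n)) :
    (derivative (∏ i ∈ s, (1 + C (l i) * X))).eval t / (∏ i ∈ s, (1 + C (l i) * X)).eval t =
      ∑ i ∈ s, l i / (1 + l i * t) := by
  induction s using Finset.induction_on with
  | empty => simp
  | insert a s ha ih =>
    have : (∏ i ∈ s, (1 + C (l i) * X)).eval t ≠ 0 := by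
      simpa [eval_prod] using Finset.prod_ne_zero_iff.2 fun i _ => h i
    have := h a
    rw [Finset.prod_insert ha, Finset.sum_insert ha, ← ih]
    simp only [derivative_mul, eval_add, eval_mul, derivative_add, derivative_one, derivative_C,
      derivative_X, eval_zero, eval_one, eval_C, eval_X]
    generalize ∏ i ∈ s, (1 + C (l i) * X) = P at *
    generalize 1 + l a * t = D at *
    field_simp; ring

lemma Ps_sy {t : ℂ} {l : Fin n → ℂ} (h : ∀ i, 1 + l i * t ≠ 0) : Ps t (sy l) = ∑ i, N t (l i) := by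
  rw [Ps, q_sy, ld h, Finset.mul_sum, show (n : ℂ) = ∑ _ : Fin n, 1 by simp, ← Finset.sum_sub_distrib]
  exact Finset.sum_congr rfl fun i _ => by
    rw [N, eq_div_iff (h i)]; linear_combination (-2 * t) * div_mul_cancel₀ (l i) (h i)

lemma N_re (t l : ℂ) : (N t l).re = (1 - ‖l * t‖ ^ 2) / ‖1 + l * t‖ ^ 2 := by
  rw [N, div_re, ← add_div, Complex.sq_norm, Complex.sq_norm]
  congr 1
  simp [normSq_apply]; ring

lemma ou {u : ℂ} (hu : 0 ≤ u.re) : 1 + u ≠ 0 := fun h => by
  have := congrArg re h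
  simp at this; linarith

lemma Ps_cd {t : ℂ} {z : Fin n → ℂ} (h : (q z).eval t ≠ 0) : ContDiffAt ℂ 1 (Ps t) z := by
  have : ∀ z : Fin n → ℂ, (derivative (q z)).eval t = ∑ k, z k * (((k + 1 : ℕ) : ℂ) * t ^ (k : ℕ)) :=
    fun z => by simp [q, eval_finsetSum]
  unfold Ps
  simp only [this, ev_q] at h ⊢
  fun_prop (disch := exact h)

lemma mainA {t : ℂ} (ht : ‖t‖ = 1) {l : Fin n → ℂ} (hl : ∀ i, ‖l i‖ ≤ 1) {i₀ : Fin n}
    (h0 : ‖l i₀‖ = 1) (hn : ∀ i, 1 + l i * t ≠ 0) {F : (Fin n → ℂ) → Fin n → ℂ}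
    (hF : DifferentiableOn ℂ F (G n)) (hm : MapsTo F (G n) (G n))
    (h : (fun z => F z - z) =o[𝓝[G n] (sy l)] fun z => ‖z - sy l‖ ^ 3) :
    ∀ z ∈ G n, Ps t (F z) = Ps t z := by
  have t0 : t ≠ 0 := norm_pos_iff.1 (by rw [ht]; norm_num)
  have m1 : ∀ u ∈ HP, ‖M t u‖ < 1 := fun u hu => by
    rw [M, norm_div, ht, div_one, norm_div, div_lt_one (norm_pos_iff.2 (ou (le_of_lt hu))),
      ← sq_lt_sq₀ (norm_nonneg _) (norm_nonneg _)]
    simp [Complex.sq_norm, normSq_apply]
    nlinarith [show 0 < u.re from hu]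
  have NM : ∀ u ∈ HP, N t (M t u) = u := fun u hu => by
    have := ou (le_of_lt hu)
    rw [N, div_eq_iff (one_add_ne (m1 u hu) ht.le), M]; field_simp; ring
  have MN : ∀ l, 1 + l * t ≠ 0 → M t (N t l) = l := fun l hl => by
    rw [M, N, div_eq_iff t0, div_eq_iff (by field_simp; simpa using hl)]; field_simp; ring
  have n1 : ∀ l, ‖l‖ < 1 → N t l ∈ HP := fun l hl => by
    simp only [HP, mem_ofPred_eq, N_re]
    refine div_pos ?_ (pow_pos (norm_pos_iff.2 (one_add_ne hl ht.le)) 2)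
    rw [norm_mul, ht]; nlinarith [norm_nonneg l]
  have n2 : ∀ i, 0 ≤ (N t (l i)).re := fun i => by
    rw [N_re]
    refine div_nonneg ?_ (by positivity)
    rw [norm_mul, ht]; nlinarith [norm_nonneg (l i), hl i]
  let z : (Fin n → ℂ) → Fin n → ℂ := fun u => sy fun i => M t (u i)
  have pm : MapsTo z (Hn (Fin n)) (G n) := fun u hu => ⟨_, fun i => m1 _ (hu i), rfl⟩
  have pp : ∀ u ∈ Hn (Fin n), Ps t (z u) = ∑ i, u i := fun u hu => by
    rw [Ps_sy fun i => one_add_ne (m1 _ (hu i)) ht.le]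
    exact Finset.sum_congr rfl fun i _ => NM _ (hu i)
  have dz : ∀ u : Fin n → ℂ, (∀ i, 0 ≤ (u i).re) → DifferentiableAt ℂ z u := fun u hu => by
    have := fun i => ou (hu i)
    unfold z sy M
    refine differentiableAt_pi.2 fun k => DifferentiableAt.fun_sum fun S _ =>
      (HasFDerivAt.finsetProd fun i _ => DifferentiableAt.hasFDerivAt ?_).differentiableAt
    fun_prop (disch := exact this i)
  have dS : DifferentiableOn ℂ (Ps t) (G n) := fun z hz =>
    ((Ps_cd ((G_eq ▸ hz) t (mem_closedBall_zero_iff.2 ht.le))).differentiableAt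
      one_ne_zero).differentiableWithinAt
  have e0 : (fun i => ((N t (l i)).re + (N t (l i)).im * I : ℂ)) = fun i => N t (l i) := by
    ext i; exact re_add_im _
  have k := coreN (T := fun u => Ps t (F (z u))) (β := fun i => (N t (l i)).re)
    (θ := fun i => (N t (l i)).im) (dS.comp (hF.comp (fun u hu =>
      (dz u fun i => le_of_lt (hu i)).differentiableWithinAt) pm) (hm.comp pm))
    (fun u hu => by
      obtain ⟨a, ha, e1⟩ := hm (pm hu)
      rw [← e1, Ps_sy fun i => one_add_ne (ha i) ht.le, re_sum]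
      exact Finset.sum_pos (fun i _ => n1 _ (ha i)) ⟨i₀, Finset.mem_univ _⟩)
    (fun σ u => by
      congr 2
      refine q_inj ?_
      rw [q_sy, q_sy]
      exact Equiv.prod_comp σ fun i => 1 + C (M t (u i)) * X) n2 (i₀ := i₀)
    (by simp [N_re, h0, ht]) (by
      rw [e0]
      have z0 : z (fun i => N t (l i)) = sy l := by simp only [z, MN _ (hn _)]
      have zd := dz _ n2
      have zt : Tendsto z (𝓝[Hn (Fin n)] fun i => N t (l i)) (𝓝[G n] (sy l)) :=
        tendsto_nhdsWithin_iff.2 ⟨(z0 ▸ zd.continuousAt.tendsto).mono_left nhdsWithin_le_nhds,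
          mem_of_superset self_mem_nhdsWithin pm⟩
      have o1 := (h.comp_tendsto zt).trans_isBigO
        (z0 ▸ (zd.isBigO_sub.norm_norm.pow 3).mono nhdsWithin_le_nhds)
      have zt' := zt.mono_right nhdsWithin_le_nhds
      have ft : Tendsto (fun u => F (z u)) (𝓝[Hn (Fin n)] fun i => N t (l i)) (𝓝 (sy l)) := by
        have := (o1.trans_tendsto ((Continuous.tendsto' (by fun_prop) _ 0 (by simp)).mono_left
          nhdsWithin_le_nhds)).add zt'
        simpa using this
      have cd := Ps_cd (z := sy l) (t := t) (by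
        rw [ev_sy]; exact Finset.prod_ne_zero_iff.2 fun i _ => hn i)
      refine (((cd.hasStrictFDerivAt one_ne_zero).isBigO_sub.comp_tendsto
        (ft.prodMk_nhds zt')).trans_isLittleO o1).congr'
        (mem_of_superset self_mem_nhdsWithin fun u hu => ?_) EventuallyEq.rfl
      simp only [Function.comp, mem_ofPred_eq, pp u hu])
  rintro _ ⟨a, ha, rfl⟩
  have := k _ fun i => n1 _ (ha i)
  simp only [z, MN _ (one_add_ne (ha _) ht.le)] at this
  rw [this, Ps_sy fun i => one_add_ne (ha i) ht.le]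

theorem main {p : Fin n → ℂ} (hp : p ∈ frontier (G n)) {F : (Fin n → ℂ) → Fin n → ℂ}
    (hF : DifferentiableOn ℂ F (G n)) (hm : MapsTo F (G n) (G n))
    (h : (fun z => F z - z) =o[𝓝[G n] p] fun z => ‖z - p‖ ^ 3) : ∀ z ∈ G n, F z = z := fun z hz => by
  obtain ⟨l, hl, ⟨i₀, h0⟩, rfl⟩ := bdry hp
  have inf : (sphere (0 : ℂ) 1).Infinite := (isPreconnected_sphere (by simp) 0 1).infinite_of_nontrivial
    ⟨1, by simp, -1, by simp, by norm_num⟩
  have nz : ∀ z : Fin n → ℂ, q z ≠ 0 := fun z h => by simpa [h] using q0 z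
  have W := eq_zero_of_infinite_isRoot (q (sy l) * (derivative (q (F z) - q z) * q z -
    derivative (q z) * (q (F z) - q z))) (inf.mono fun t ht => by
      rw [mem_sphere_zero_iff_norm] at ht
      have t0 : t ≠ 0 := norm_pos_iff.1 (by rw [ht]; norm_num)
      rw [mem_ofPred_eq, IsRoot, eval_mul, mul_eq_zero, or_iff_not_imp_left, ev_sy]
      intro hn
      have := mainA ht hl h0 (fun i => Finset.prod_ne_zero_iff.1 hn i (Finset.mem_univ i)) hF hm h z hz
      rw [Ps, Ps, sub_right_inj, mul_right_inj' (mul_ne_zero two_ne_zero t0), div_eq_div_iff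
        ((G_eq ▸ hm hz) t (mem_closedBall_zero_iff.2 ht.le))
        ((G_eq ▸ hz) t (mem_closedBall_zero_iff.2 ht.le))] at this
      simp only [derivative_sub, eval_sub, eval_mul]
      linear_combination this)
  rw [mul_eq_zero, or_iff_right (nz _), sub_eq_zero] at W
  refine q_inj (sub_eq_zero.1 (by_contra fun hd => ?_))
  have r : (q (F z) - q z).IsRoot 0 := by simp [q0]
  generalize q (F z) - q z = d at *
  have d0 : derivative d ≠ 0 := fun e => hd (by
    rw [eq_C_of_derivative_eq_zero e] at r ⊢; simpa using r)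
  have := congrArg (rootMultiplicity 0) W
  rw [rootMultiplicity_mul (mul_ne_zero d0 (nz z)), rootMultiplicity_mul
    (W ▸ mul_ne_zero d0 (nz z)), derivative_rootMultiplicity_of_root r,
    rootMultiplicity_eq_zero (p := q z) (by simp [q0])] at this
  have := (rootMultiplicity_pos hd).2 r
  omega

end Pool.Agent.H.MP_96bc49_an
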